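import Pool.Agent.Helper62.BX.Conc
import Pool.Agent.Helper62.IX.Cond
import Pool.Agent.Helper62.IX.Main

/-!
# All families of cyclic covers of the line with big monodromy

Let `K` be a number field, `m ≥ 2`, `q ≥ 0`, `s = (s_1, …, s_q)`, let `a_1, …, a_c ∈ 𝓞 K [s][t][x]` be monic in `x`
of degrees `nd_1, …, nd_c`, with `∏ a_l` squarefree over `K(s, t)`, let `e_1, …, e_c` be any exponents, and
`φ ∈ 𝓞 K [s][t]` not constant in `t`. We consider the family of cyclic covers of the line with `q + 1` parameters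
`u = (s, t)`

  `C_u : y ^ m = ∏ a_l(s, φ(s, t), x) ^ e_l`.

Every family of cyclic covers of the line has such an equation up to a twist and the choice of the coordinate `x`;
the branch points may be totally ramified or not, and
infinity may be a branch point or not. Over a field which contains the `m`-th roots of unity the motive
`H ^ 1(C_u)` is the sum of the eigen-summands `H_r`, `0 < r < m`: the cohomology of the line with coefficients in a
local system with the exponents `ρ_l(r) / m` at the zeros of `a_l`, `ρ_l` = the remainder of `r e_l` modulo `m`, which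
is ramified only at the zeros of the *visible* `a_l`, those with `ρ_l ≠ 0`, and perhaps at infinity. Let
`N = ∑ nd_l - 1`, the sum over the visible `l`. The elements of `H_r` are the forms `w dx / ∏ a_l ^ (ρ_l / m)`,
`deg w < N`, without residue at infinity if `m` divides `∑ ρ_l nd_l` (`SecondKind`); the rank is `N`, and `N - 1` if
`m` divides `∑ ρ_l nd_l`. The regular forms are those with `deg w < d_r = ⌊(∑ ρ_l nd_l - 1) / m⌋`, so the Hodge-Tate
polygon of `H_r` has the slopes `0` and `1` with the multiplicities `d_r` and `rank - d_r` (or in the other order).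
For a place `v` of prime norm `p ≡ 1` modulo `m` the Cartier operator maps `H_r` to itself and has there the matrix
`HW_r` with the entries

  `[x ^ (p i - j)] ∏ a_l ^ (ρ_l (p - 1) / m)`, `1 ≤ i, j ≤ d_r`;

if the reduction is smooth, the Newton polygon of `H_r` at `v` is the Hodge-Tate polygon if and only if
`HW_r` is invertible. If this is so for all `r` the reduction is ordinary, and the Newton polygons of ALL
summands of `H ^ 1(C_u)`, of its tensor powers and so on, are their Hodge-Tate polygons.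

Let `k` be the algebraic closure of `K(s)`. We assume for every `r` with `d_r ≠ 0` (`Big`; if `d_r = 0` then `H_r` has
no regular forms, there is one slope only and nothing to prove):

* (Rank) The rank of `H_r` is at least two.
* (Node) For some `t₀ ∈ k` exactly one zero `x₀` of `a_i` meets one zero of `a_j`, `i ≠ j`, `a_i` and `a_j` visible,
  `ρ_i + ρ_j = m`, and there is no other degeneration of the zeros of the visible `a_l`. (So the local monodromy
  on `H_r` is a transvection. `t₀` may depend on `r`. Nothing is assumed on the other degenerate fibres, and the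
  two zeros may meet with any multiplicity in `t`.)
* (Irr) The Gauss-Manin connection on `H_r` is irreducible over all algebraic extensions of `k(t)`: the
  representation of the monodromy group is irreducible, and remains so on all subgroups of finite index.
* (NoForm) If `r ≠ m / 2` and the rank of `H_r` is even and at least four: no alternating bilinear form on `H_r`
  over an algebraic extension of `k(t)` is horizontal up to a factor.

These assumptions mean that the identity component of the monodromy group on `H_r` is the special linear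
group, for `r = m / 2` the symplectic group, and that in one fibre just two branch points with opposite local
monodromy meet. (For odd rank (Node) and (Irr) suffice.)

**Theorem.** Let `G_r ≠ 0` be polynomials in `d_r ^ 2 + 1` variables over `𝓞 K [s]`. Call `v` *good for `u`*
if `v` does not divide `m`, modulo `v` the polynomial `∏ a_l` is squarefree (so `C_u` has good reduction), and
`det HW_r ≠ 0` and `G_r(φ(s, t), HW_r) ≠ 0` for all `r`.

1. For every `ε > 0` and all but finitely many places `v` of prime norm `N v ≡ 1` modulo `m`, `v` is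
   not good for at most `ε (N v) ^ (q + 1)` of the `(N v) ^ (q + 1)` residue classes `u`.
2. For `η > 0`, `0 < θ < 1` there is `A` such that for all `u ∈ [1, X] ^ (q + 1)` but at most
   `A (X ^ (q + 1) / Q₀ ^ (1 - θ) + X ^ q Q₁ ^ (1 + θ))`, and for ALL `Q` with `Q₀ ≤ Q ≤ Q₁`, the places `v` with
   `N v ≤ Q`, `N v ≡ 1` modulo `m` which are not good for `u` are at most the proportion `η` of ALL places with
   `N v ≤ Q`. (The places with `N v ≡ 1` have the density `1 / [K(ζ_m) : K]`, so almost all of them are good.) If `K`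
   contains the `m`-th roots of unity, the places good for `u` are at least the proportion `1 - η` of all places.
3. For `η, δ > 0` there is `C` such that if `X ^ δ Q₀ ≤ Q₁`, then for all `u ∈ [1, X] ^ (q + 1)` but at most
   `C X ^ q Q₁` this is true for at least the proportion `1 - η` of the scales `Q = 2 ^ j` between `Q₀` and `Q₁`.

The earlier results on cyclic covers (`TotallyDegenerateCurves`, `KummerSummands` of the library of this pool and
`CyclicCoversInFamilies` of this run) are for explicit families. Here the family is arbitrary: that the Newton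
polygons of almost all members are their Hodge-Tate polygons follows from the monodromy alone.

## Proof

Let `Λ(a') = ∑ ρ_l a'_l ∏_(j ≠ l) a_j`, the `a_l` visible. On the forms with `deg w < N` the Gauss-Manin connection is
computed by `m P ∏ a_l + S Λ(∂a/∂x) = W x ^ l Λ(∂a/∂t)`, `W ∇ (x ^ l) = - (P + ∂S/∂x)`, with a common denominator
`W`. At the node `W` has a simple zero (`G_Loc`) and the residue is `ν w(t₀) σ eᵀ / μ`, of rank one and nilpotent, with
`e = (x₀ ^ l)`, `σ` the coefficients of `(x - x₀) (m B' - V)`, `B = ∏ a₁_l`, `V = ∑ ρ_l a₁_l' B / a₁_l`, and a positive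
integer `ν`, the thickness of the node (`G_Rk`). The functionals `x ^ l ↦ [x ^ (p i - 1)] x ^ l ∏ a_j ^ (ρ_j (p - 1) / m)`
are horizontal (`G_HWb`), polynomials in `t` of degree `O(p)` and linearly independent (`G_HWrank`). If
`∑ ρ_l nd_l = m (s + 1)` the residue at infinity is a horizontal functional (`I_Stab`): it maps `x ^ l` to `T_(l - s)`, where
`T(z)`, `z = 1 / x`, is the expansion of `x ^ (s + 1) ∏ a_l ^ (- ρ_l / m)`. Modulo `p` it is the functional with `i = s + 1`.
So on its kernel, with the coordinates `w_l`, `l ≠ s`, there are the same structures (`I_Data`, `I_HWb`, `I_HWrank`).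

In characteristic zero (in an ultraproduct of the reductions for `p → ∞`) let `x`, `y` be the horizontal
vector and the horizontal functional of power series at `t₀` with the values `σ`, `e`, and `X = x yᵀ`. All linear
relations over `k(t)` between the entries of the `p`-curvature are satisfied by `X` (`C_Van`). The entries of `x`
and of `y` are linearly independent over `k(t)`, only the scalar matrices commute with `X`, and `X` respects
no form (`C_Strong`): here the assumptions (Irr) and (NoForm) are used. These properties do not depend on the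
algebraically closed field (`C_Tr`), so they pass from the generic point of a finitely generated ring `A` to the
ultraproduct of its reductions. So the Lie algebra of the relations is the special linear one (`C_Con`, with the
theorem `K_Lie` on Lie algebras which contain a nilpotent element of rank one), the entries of the functionals
are algebraically independent over the functions of bounded degree in `t` and `t ^ p` (`C_Ind`, `C_NV`), and
the soft Stepanov method gives few zeros (`G_FewG`, `I_FewG`). For `r = m / 2` the same with the symplectic Lie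
algebra (`Pool/Agent/Results/MP_17d720_ag/BigMonodromyFamilies.lean`). Then the passage to number fields and
several parameters (`I_FewR`, `X_Count`, `X_Sieve`, `X_Most`) is as in `CyclicCoversInFamilies`.

The statements of the lemmas are in `Pool/Agent/Helper62/CX/Stm.lean`, `Pool/Agent/Helper62/VX/Stm.lean`,
`Pool/Agent/Helper62/GX/Stm.lean`, `Pool/Agent/Helper62/HX/Stm.lean` and `Pool/Agent/Helper62/IX/Stm.lean`; they were
proved in Lean by helpers 4, 12, 13, 15, 18, 31, 34, 36, 38, 41, 59, 61, 62, 68, 72, 82, 90 and 93 after these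
docstrings.
-/

set_option autoImplicit false

open Polynomial Finset NumberField IsDedekindDomain

namespace Pool.Agent.Results.MP_0dad22_ag.BigMonodromyCovers

section field

/-- `T(z)`, `z = 1 / x`, is the expansion of `x ^ (∑ ρ_l nd_l / m) ∏ a_l ^ (- ρ_l / m)` at infinity, modulo
`z ^ (N + 1)`: `T(0) = 1` and `T ^ m ∏ (z ^ (nd_l) a_l(1 / z)) ^ ρ_l ≡ 1`. -/
def Expansion {ι E : Type} [Fintype ι] [Field E] (m N : ℕ) (ρ nd : ι → ℕ) (a : ι → E[X])
    (T : E[X]) : Prop :=
  T.coeff 0 = 1 ∧ X ^ (N + 1) ∣ T ^ m * ∏ l, reflect (nd l) (a l) ^ ρ l - 1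

/-- The form `u dx / ∏ a_l ^ (ρ_l / m)`, `deg u < N`, is of the second kind. If `∑ ρ_l nd_l = m (s + 1)` the form
is `u x ^ (- s - 1) T(1 / x) dx`, and it has no residue at infinity; if `m` does not divide `∑ ρ_l nd_l` there
is no condition. -/
def SecondKind {ι E : Type} [Fintype ι] [Field E] (m N : ℕ) (ρ nd : ι → ℕ) (a : ι → E[X])
    (u : E[X]) : Prop :=
  u.degree < N ∧ ∀ (s : ℕ) (T : E[X]), m * (s + 1) = ∑ l, ρ l * nd l →
    Expansion m N ρ nd a T →
    ∑ l ∈ range N, (if l < s then 0 else T.coeff (l - s)) * u.coeff l = 0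

variable {k ι : Type} [Field k] [Fintype ι] [DecidableEq ι]

/-- The derivative with respect to `t` of a polynomial in `t` and `x` (`x` is the outer variable). -/
noncomputable def dt (F : k[X][X]) : k[X][X] := F.sum fun i a => monomial i (derivative a)

/-- The coefficientwise derivation. -/
noncomputable def dE {E : Type} [Field E] (δ : Derivation ℤ E E) (u : E[X]) : E[X] :=
  u.sum fun i a => monomial i (δ a)

/-- `∑ ρ_l a'_l ∏_(j ≠ l) a_j`. -/
noncomputable def lam (ρ : ι → ℕ) (a a' : ι → k[X][X]) : k[X][X] :=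
  ∑ l, (ρ l : k[X][X]) * a' l * ∏ j ∈ univ.erase l, a j

/-- At `t = t₀` a zero of `a i` meets a zero of `a j` in `x₀`, `i ≠ j`, and this is the only
degeneration. -/
def Node (i j : ι) (a : ι → k[X][X]) (t₀ x₀ : k) (a₁ : ι → k[X]) : Prop :=
  i ≠ j ∧ (∀ l, (a l).map (evalRingHom t₀) =
    if l = i ∨ l = j then (X - C x₀) * a₁ l else a₁ l) ∧
    (∏ l, a₁ l).Separable ∧ (∏ l, a₁ l).eval x₀ ≠ 0

/-- A polynomial in `t` and `x` as a polynomial in `x` over an extension `E` of `k(t)`. -/
noncomputable def toE (E : Type) [Field E] [Algebra (FractionRing k[X]) E] (F : k[X][X]) : E[X] :=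
  F.map ((algebraMap (FractionRing k[X]) E).comp (algebraMap k[X] (FractionRing k[X])))

/-- The derivation `δ` of `E` extends `d / dt`. -/
def Extends {E : Type} [Field E] [Algebra (FractionRing k[X]) E] (δ : Derivation ℤ E E) : Prop :=
  ∀ c : k[X], δ (algebraMap (FractionRing k[X]) E (algebraMap k[X] (FractionRing k[X]) c)) =
    algebraMap (FractionRing k[X]) E (algebraMap k[X] (FractionRing k[X]) (derivative c))

/-- The Gauss-Manin connection on the forms `u dx / ∏ a_l ^ (ρ_l / m)`, `deg u < N`: one has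
`∇ u = w` if `w = u' - P - ∂S / ∂x`, `m P ∏ a_l + S Λ(∂a/∂x) = u Λ(∂a/∂t)`, `deg P < N`, `deg S ≤ N`,
`Λ(a') = ∑ ρ_l a'_l ∏_(j ≠ l) a_j`; here `u'` is the coefficientwise derivative. -/
def Nabla (m : ℕ) (ρ : ι → ℕ) (N : ℕ) (a : ι → k[X][X]) {E : Type} [Field E]
    [Algebra (FractionRing k[X]) E] (δ : Derivation ℤ E E) (u w : E[X]) : Prop :=
  ∃ P S : E[X], P.natDegree < N ∧ S.natDegree ≤ N ∧
    (m : E[X]) * P * toE E (∏ l, a l) + S * toE E (lam ρ a fun l => derivative (a l)) =
      u * toE E (lam ρ a fun l => dt (a l)) ∧ w = dE δ u - P - derivative S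

/-- The Gauss-Manin connection on the forms of the second kind is irreducible over all algebraic
extensions `E` of `k(t)`. -/
def Irreducible (m N : ℕ) (ρ nd : ι → ℕ) (a : ι → k[X][X]) : Prop :=
  ∀ (E : Type) [Field E] [Algebra (FractionRing k[X]) E]
    [Algebra.IsAlgebraic (FractionRing k[X]) E] (δ : Derivation ℤ E E), Extends (k := k) δ →
    ∀ W : Submodule E E[X], (∀ u ∈ W, SecondKind m N ρ nd (fun l => toE E (a l)) u) →
    (∀ u ∈ W, ∀ w : E[X], Nabla m ρ N a δ u w → w ∈ W) →
    W = ⊥ ∨ ∀ u, SecondKind m N ρ nd (fun l => toE E (a l)) u → u ∈ W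

/-- `β` is bilinear and alternating. -/
def Alternating {E : Type} [Field E] (β : E[X] → E[X] → E) : Prop :=
  (∀ u v w, β (u + v) w = β u w + β v w) ∧ (∀ u v w, β u (v + w) = β u v + β u w) ∧
    (∀ (z : E) (u v : E[X]), β (C z * u) v = z * β u v ∧ β u (C z * v) = z * β u v) ∧
    ∀ u, β u u = 0

/-- The form `β` on the forms of the second kind is horizontal up to the factor `κ`. -/
def Horizontal (m N : ℕ) (ρ nd : ι → ℕ) (a : ι → k[X][X]) {E : Type} [Field E]
    [Algebra (FractionRing k[X]) E] (δ : Derivation ℤ E E) (β : E[X] → E[X] → E) (κ : E) :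
    Prop :=
  ∀ u v u' v' : E[X], SecondKind m N ρ nd (fun l => toE E (a l)) u →
    SecondKind m N ρ nd (fun l => toE E (a l)) v → Nabla m ρ N a δ u u' →
    Nabla m ρ N a δ v v' → δ (β u v) = β u' v + β u v' + κ * β u v

/-- No alternating bilinear form on the forms of the second kind over an algebraic extension of `k(t)` is
horizontal up to a factor. -/
def NoForm (m N : ℕ) (ρ nd : ι → ℕ) (a : ι → k[X][X]) : Prop :=
  ∀ (E : Type) [Field E] [Algebra (FractionRing k[X]) E]
    [Algebra.IsAlgebraic (FractionRing k[X]) E] (δ : Derivation ℤ E E), Extends (k := k) δ →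
    ∀ (β : E[X] → E[X] → E) (κ : E), Alternating β → Horizontal m N ρ nd a δ β κ →
    ∀ u v, SecondKind m N ρ nd (fun l => toE E (a l)) u →
      SecondKind m N ρ nd (fun l => toE E (a l)) v → β u v = 0

/-- The rank of the space of the forms of the second kind. -/
def rank (m N : ℕ) (ρ nd : ι → ℕ) : ℕ := if m ∣ ∑ l, ρ l * nd l then N - 1 else N

/-- The local system with the exponents `ρ` has big monodromy: in one fibre two branch points with opposite
exponents meet, it is irreducible, and if it is not symplectic (`sp`) it has no alternating form. -/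
def Big (m N : ℕ) (ρ nd : ι → ℕ) (sp : Prop) (a : ι → k[X][X]) : Prop :=
  2 ≤ rank m N ρ nd ∧ (∃ (i j : ι) (t₀ x₀ : k) (a₁ : ι → k[X]), ρ i + ρ j = m ∧
    Node i j a t₀ x₀ a₁) ∧ Irreducible m N ρ nd a ∧
    (sp ∨ rank m N ρ nd = 2 ∨ Odd (rank m N ρ nd) ∨ NoForm m N ρ nd a)

end field

/-- The polynomials over `𝓞 K` in the parameters `s_1, …, s_q`. -/
abbrev Par (K : Type) [Field K] [NumberField K] (q : ℕ) : Type := MvPolynomial (Fin q) (𝓞 K)

/-- The algebraic closure of `K(s_1, …, s_q)`. -/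
abbrev Clo (K : Type) [Field K] [NumberField K] (q : ℕ) : Type :=
  AlgebraicClosure (FractionRing (Par K q))

variable {K : Type} [Field K] [NumberField K] {q c : ℕ}

/-- The family over the algebraic closure of `K(s)`. -/
noncomputable def gen (F : (Par K q)[X][X]) : (Clo K q)[X][X] :=
  F.map (mapRingHom (algebraMap (Par K q) (Clo K q)))

/-- The `a_l` are monic of degrees `nd_l`, and the product is squarefree. -/
def Smooth (nd : Fin c → ℕ) (a : Fin c → (Par K q)[X][X]) : Prop :=
  (∀ l, (a l).Monic ∧ (a l).natDegree = nd l) ∧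
    ((∏ l, a l).map (algebraMap (Par K q)[X] (FractionRing (Par K q)[X]))).Separable

/-- The exponents `ρ_l` of the eigen-summand `H_r`. -/
def rho (m r : ℕ) (e : Fin c → ℕ) : Fin c → ℕ := fun l => r * e l % m

/-- The factors `a_l` at whose zeros the eigen-summand `H_r` is ramified. -/
abbrev Vis (m r : ℕ) (e : Fin c → ℕ) : Type := {l : Fin c // ¬ m ∣ r * e l}

/-- The number `d_r` of the regular differential forms in `H_r`. -/
def dr (m : ℕ) (e nd : Fin c → ℕ) (r : ℕ) : ℕ := (∑ l, rho m r e l * nd l - 1) / m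

/-- All eigen-summands `H_r` which contain regular forms have big monodromy. -/
def BigMonodromy (m : ℕ) (e nd : Fin c → ℕ) (a : Fin c → (Par K q)[X][X]) : Prop :=
  ∀ r, 0 < r → r < m → dr m e nd r ≠ 0 → Big m (∑ l : Vis m r e, nd l - 1)
    (fun l : Vis m r e => rho m r e l) (fun l : Vis m r e => nd l) (2 * r = m)
    (fun l : Vis m r e => gen (a l))

/-- The value of a polynomial in the parameters; `u = (s_1, …, s_q, t)`. -/
noncomputable def val (u : Fin (q + 1) → ℕ) : Par K q →+* 𝓞 K :=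
  MvPolynomial.eval fun i => (u i.castSucc : 𝓞 K)

/-- The value `φ(s, t)`. -/
noncomputable def phi (φ : (Par K q)[X]) (u : Fin (q + 1) → ℕ) : 𝓞 K :=
  (φ.map (val u)).eval (u (Fin.last q) : 𝓞 K)

/-- The block `HW_r` of the Hasse-Witt matrix over a field with `p` elements, `p ≡ 1` modulo `m`: the entry
`(i, j)`, `1 ≤ i, j ≤ d`, is the coefficient of `x ^ (p i - j)` in `∏ a_l ^ (ρ_l (p - 1) / m)`, written as the
coefficient of `x ^ (p i - 1)` in `x ^ (j - 1)` times this polynomial. -/
noncomputable def hasseWitt {R : Type} [CommRing R] (p m : ℕ) (ρ : Fin c → ℕ) (d : ℕ)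
    (a : Fin c → R[X]) : Matrix (Fin d) (Fin d) R :=
  Matrix.of fun i j => (X ^ (j : ℕ) * ∏ l, a l ^ (ρ l * ((p - 1) / m))).coeff
    (p * ((i : ℕ) + 1) - 1)

/-- The reduction of a polynomial at `v`. -/
noncomputable def red (v : HeightOneSpectrum (𝓞 K)) (F : (𝓞 K)[X]) :
    v.asIdeal.ResidueField[X] :=
  F.map (algebraMap (𝓞 K) v.asIdeal.ResidueField)

/-- The block `HW_r` at the place `v` of the curve `y ^ m = ∏ a_l(z, x) ^ e_l`. -/
noncomputable def HW (m : ℕ) (ρ : Fin c → ℕ) (d : ℕ) (a : Fin c → (𝓞 K)[X][X]) (z : 𝓞 K)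
    (v : HeightOneSpectrum (𝓞 K)) : Matrix (Fin d) (Fin d) v.asIdeal.ResidueField :=
  hasseWitt (Ideal.absNorm v.asIdeal) m ρ d fun l => red v ((a l).map (evalRingHom z))

/-- `v` is good for the curve `y ^ m = ∏ a_l(z, x) ^ e_l`, the `a_l` monic of degrees `nd_l`: `v` does not divide
`m`, modulo `v` the polynomial `∏ a_l` is squarefree (good reduction), and for `0 < r < m` the block `HW_r` is
invertible and `G_r(z, HW_r) ≠ 0`. -/
def GoodAt (m : ℕ) (e nd : Fin c → ℕ) (a : Fin c → (𝓞 K)[X][X])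
    (G : ∀ r, MvPolynomial (Fin (dr m e nd r) × Fin (dr m e nd r)) (𝓞 K)[X]) (z : 𝓞 K)
    (v : HeightOneSpectrum (𝓞 K)) : Prop :=
  (m : 𝓞 K) ∉ v.asIdeal ∧ (red v (∏ l, (a l).map (evalRingHom z))).Separable ∧
    ∀ r, 0 < r → r < m → (HW m (rho m r e) (dr m e nd r) a z v).det ≠ 0 ∧
      MvPolynomial.eval₂ ((algebraMap (𝓞 K) v.asIdeal.ResidueField).comp (evalRingHom z))
        (fun w => HW m (rho m r e) (dr m e nd r) a z v w.1 w.2) (G r) ≠ 0

/-- `v` is good for the parameters `u = (s, t)`. -/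
def Good (m : ℕ) (e nd : Fin c → ℕ) (a : Fin c → (Par K q)[X][X]) (φ : (Par K q)[X])
    (G : ∀ r, MvPolynomial (Fin (dr m e nd r) × Fin (dr m e nd r)) (Par K q)[X])
    (v : HeightOneSpectrum (𝓞 K)) (u : Fin (q + 1) → ℕ) : Prop :=
  GoodAt m e nd (fun l => (a l).map (mapRingHom (val u)))
    (fun r => MvPolynomial.map (mapRingHom (val u)) (G r)) (phi φ u) v

open Classical in
/-- For every `ε > 0` and all but finitely many `v` of prime norm `N v ≡ 1` modulo `m` at most
`ε (N v) ^ (q + 1)` classes of parameters modulo `v` are not good. -/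
def FewClasses (m : ℕ) (Good : HeightOneSpectrum (𝓞 K) → (Fin (q + 1) → ℕ) → Prop) : Prop :=
  ∀ ε : ℝ, 0 < ε → {v : HeightOneSpectrum (𝓞 K) | (Ideal.absNorm v.asIdeal).Prime ∧
    m ∣ Ideal.absNorm v.asIdeal - 1 ∧ ε * (Ideal.absNorm v.asIdeal : ℝ) ^ (q + 1) <
      (((Fintype.piFinset fun _ : Fin (q + 1) => range (Ideal.absNorm v.asIdeal)).filter
        fun u => ¬ Good v u).card : ℝ)}.Finite

/-- For almost all parameters the proportion `1 - η` of the places is good, at all scales between `Q₀`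
and `Q₁`. -/
def AllScales (Good : HeightOneSpectrum (𝓞 K) → (Fin (q + 1) → ℕ) → Prop) : Prop :=
  ∀ η : ℝ, 0 < η → ∀ θ : ℝ, 0 < θ → θ < 1 → ∃ A : ℝ, ∀ X Q₀ Q₁ : ℕ, 1 ≤ Q₀ →
    ({u : Fin (q + 1) → ℕ | (∀ i, 1 ≤ u i ∧ u i ≤ X) ∧ ∃ Q, Q₀ ≤ Q ∧ Q ≤ Q₁ ∧
      (Nat.card {v : HeightOneSpectrum (𝓞 K) // Ideal.absNorm v.asIdeal ≤ Q ∧ Good v u} : ℝ) <
      (1 - η) * Nat.card {v : HeightOneSpectrum (𝓞 K) //
        Ideal.absNorm v.asIdeal ≤ Q}}.ncard : ℝ) ≤
    A * ((X : ℝ) ^ (q + 1) * (Q₀ : ℝ) ^ (θ - 1) + (X : ℝ) ^ q * (Q₁ : ℝ) ^ (1 + θ))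

/-- For all but few parameters the proportion `1 - η` of the places is good, at the proportion `1 - η` of
the scales `2 ^ j` between `Q₀` and `Q₁`. -/
def MostScales (Good : HeightOneSpectrum (𝓞 K) → (Fin (q + 1) → ℕ) → Prop) : Prop :=
  ∀ η δ : ℝ, 0 < η → 0 < δ → ∃ C : ℝ, ∀ X Q₀ Q₁ : ℕ, 1 ≤ Q₀ → (X : ℝ) ^ δ * Q₀ ≤ Q₁ →
    ({u : Fin (q + 1) → ℕ | (∀ i, 1 ≤ u i ∧ u i ≤ X) ∧
      (Nat.card {j : ℕ // (Q₀ ≤ 2 ^ j ∧ 2 ^ j ≤ Q₁) ∧
        (1 - η) * Nat.card {v : HeightOneSpectrum (𝓞 K) // Ideal.absNorm v.asIdeal ≤ 2 ^ j} ≤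
        (Nat.card {v : HeightOneSpectrum (𝓞 K) // Ideal.absNorm v.asIdeal ≤ 2 ^ j ∧
          Good v u} : ℝ)} : ℝ) <
      (1 - η) * Nat.card {j : ℕ // Q₀ ≤ 2 ^ j ∧ 2 ^ j ≤ Q₁}}.ncard : ℝ) ≤
    C * ((X : ℝ) ^ q * Q₁)

/-- `v` is good for `u`, or the norm of `v` is not congruent to `1` modulo `m`. -/
def IfSplit (m : ℕ) (Good : HeightOneSpectrum (𝓞 K) → (Fin (q + 1) → ℕ) → Prop)
    (v : HeightOneSpectrum (𝓞 K)) (u : Fin (q + 1) → ℕ) : Prop :=
  m ∣ Ideal.absNorm v.asIdeal - 1 → Good v u

end Pool.Agent.Results.MP_0dad22_ag.BigMonodromyCovers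

open Pool.Agent.Results.MP_0dad22_ag.BigMonodromyCovers

namespace Pool.Agent.Results.MP_0dad22_ag.BigMonodromyCovers

section

variable {k ι : Type} [Field k] [Fintype ι] [DecidableEq ι]

theorem to_node (i j : ι) (a : ι → k[X][X]) (t₀ x₀ : k) (a₁ : ι → k[X])
    (h : Node i j a t₀ x₀ a₁) : Pool.Agent.Helper62.GX.NodeG i j a t₀ x₀ a₁ := by
  obtain ⟨n1, n2, n3, n4⟩ := h
  exact ⟨n1, n2, (Polynomial.separable_map _).2 n3, n4⟩

theorem alt {E : Type} [Field E] (β : E[X] →ₗ[E] E[X] →ₗ[E] E) (h : ∀ u, β u u = 0) :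
    Alternating fun u v => β u v := by
  refine ⟨fun u v w => ?_, fun u v w => ?_, fun z u v => ⟨?_, ?_⟩, h⟩
  · simp only [map_add, LinearMap.add_apply]
  · simp only [map_add]
  · simp only [← Polynomial.smul_eq_C_mul, map_smul, LinearMap.smul_apply, smul_eq_mul]
  · simp only [← Polynomial.smul_eq_C_mul, map_smul, smul_eq_mul]

theorem second_ram {E : Type} [Field E] (m N : ℕ) (ρ nd : ι → ℕ) (a : ι → E[X])
    (h : ¬ m ∣ ∑ l, ρ l * nd l) (u : E[X]) : SecondKind m N ρ nd a u ↔ u ∈ degreeLT E N := by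
  rw [mem_degreeLT]
  constructor
  · exact fun h1 => h1.1
  · exact fun h1 => ⟨h1, fun s T hs _ => absurd ⟨s + 1, hs.symm⟩ h⟩

theorem second_unram {E : Type} [Field E] [CharZero E] (m N s : ℕ) (ρ nd : ι → ℕ)
    (a : ι → E[X]) (hs : m * (s + 1) = ∑ l, ρ l * nd l) (hm : m ≠ 0) (T : E[X])
    (hT : Expansion m N ρ nd a T) (u : E[X]) :
    SecondKind m N ρ nd a u ↔ u ∈ Pool.Agent.Helper62.IX.VI N s T := by
  rw [Pool.Agent.Helper62.IX.mem_VI]
  constructor
  · exact fun h => ⟨h.1, h.2 s T hs hT⟩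
  · rintro ⟨h1, h2⟩
    refine ⟨h1, fun s' T' hs' hT' => ?_⟩
    obtain rfl : s' = s := by
      have h3 := Nat.eq_of_mul_eq_mul_left (Nat.pos_of_ne_zero hm) (hs'.trans hs.symm)
      omega
    refine Eq.trans (Finset.sum_congr rfl fun l hl => ?_) h2
    rw [Finset.mem_range] at hl
    split_ifs
    · rfl
    · congr 1
      have h3 := Pool.Agent.Helper62.IX.root_unique hm hT' hT
      have h4 := (X_pow_dvd_iff.1 h3) (l - s') (by omega)
      rw [coeff_sub, sub_eq_zero] at h4
      exact h4

theorem to_irrG (m : ℕ) (ρ nd : ι → ℕ) (N : ℕ) (a : ι → k[X][X])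
    (hnd : ¬ m ∣ ∑ l, ρ l * nd l) (h : Irreducible m N ρ nd a) :
    Pool.Agent.Helper62.GX.IrrG k m ρ N a := by
  intro E _ i2 i3 δ hδ W hW hst
  rcases @h E _ i2 i3 δ hδ W (fun u hu => (second_ram m N ρ nd _ hnd u).2 (hW hu)) (by
    rintro u hu w ⟨P, S, h1, h2, h3, rfl⟩
    exact hst u hu P S h1 h2 h3) with h1 | h1
  · exact Or.inl h1
  · exact Or.inr (le_antisymm hW fun u hu => h1 u ((second_ram m N ρ nd _ hnd u).2 hu))

theorem to_irrI [CharZero k] (m : ℕ) (ρ nd : ι → ℕ) (n s : ℕ) (a : ι → k[X][X]) (hm : m ≠ 0)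
    (hs : m * (s + 1) = ∑ l, ρ l * nd l) (h : Irreducible m (n + 1) ρ nd a) :
    Pool.Agent.Helper62.IX.IrrI k m ρ nd n s a := by
  intro E _ i2 i3 δ hδ T hT W hW hst
  have hchar : CharZero E :=
    charZero_of_injective_ringHom (algebraMap (Pool.Agent.Helper62.BM.KX k) E).injective
  have key := second_unram m (n + 1) s ρ nd (fun l => @toE k _ E _ i2 (a l)) hs hm T hT
  rcases @h E _ i2 i3 δ hδ W (fun u hu => (key u).2 (hW hu)) (by
    rintro u hu w ⟨P, S, h1, h2, h3, rfl⟩
    exact hst u hu P S h1 h2 h3) with h1 | h1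
  · exact Or.inl h1
  · exact Or.inr (le_antisymm hW fun u hu => h1 u ((key u).2 hu))

theorem to_noBilG (m : ℕ) (ρ nd : ι → ℕ) (N : ℕ) (a : ι → k[X][X])
    (hnd : ¬ m ∣ ∑ l, ρ l * nd l) (h : NoForm m N ρ nd a) :
    Pool.Agent.Helper62.GX.NoBilG k m ρ N a := by
  intro E _ i2 i3 δ hδ β κ hβ hst u hu v hv
  refine @h E _ i2 i3 δ hδ (fun u v => β u v) κ (alt β hβ) ?_ u v
    ((second_ram m N ρ nd _ hnd u).2 hu) ((second_ram m N ρ nd _ hnd v).2 hv)
  rintro u v _ _ hu hv ⟨P, S, h1, h2, h3, rfl⟩ ⟨P', S', h1', h2', h3', rfl⟩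
  exact hst u ((second_ram m N ρ nd _ hnd u).1 hu) v ((second_ram m N ρ nd _ hnd v).1 hv)
    P S P' S' h1 h2 h1' h2' h3 h3'

theorem to_noBilI [CharZero k] (m : ℕ) (ρ nd : ι → ℕ) (n s : ℕ) (a : ι → k[X][X]) (hm : m ≠ 0)
    (hs : m * (s + 1) = ∑ l, ρ l * nd l) (h : NoForm m (n + 1) ρ nd a) :
    Pool.Agent.Helper62.IX.NoBilI k m ρ nd n s a := by
  intro E _ i2 i3 δ hδ T hT β κ hβ hst u hu v hv
  have hchar : CharZero E :=
    charZero_of_injective_ringHom (algebraMap (Pool.Agent.Helper62.BM.KX k) E).injective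
  have key := second_unram m (n + 1) s ρ nd (fun l => @toE k _ E _ i2 (a l)) hs hm T hT
  refine @h E _ i2 i3 δ hδ (fun u v => β u v) κ (alt β hβ) ?_ u v
    ((key u).2 hu) ((key v).2 hv)
  rintro u v _ _ hu hv ⟨P, S, h1, h2, h3, rfl⟩ ⟨P', S', h1', h2', h3', rfl⟩
  exact hst u ((key u).1 hu) v ((key v).1 hv) P S P' S' h1 h2 h1' h2' h3 h3'

end

theorem to_big {k : Type} [Field k] [CharZero k] {c : ℕ} (m r : ℕ) (hm : 2 ≤ m)
    (e nd : Fin c → ℕ) (a : Fin c → k[X][X])
    (h : Big m (∑ l : Vis m r e, nd l - 1) (fun l : Vis m r e => rho m r e l)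
      (fun l : Vis m r e => nd l) (2 * r = m) (fun l : Vis m r e => a l)) :
    (¬ m ∣ r * ∑ l, e l * nd l → Pool.Agent.Helper62.IX.BigR k m r e nd a) ∧
      (m ∣ r * ∑ l, e l * nd l → Pool.Agent.Helper62.IX.BigV k m r e nd a) := by
  obtain ⟨hrank, ⟨i, j, t₀, x₀, a₁, hij, hnode⟩, hirr, hform⟩ := h
  have hsum : ∑ l : Vis m r e, rho m r e l * nd l = ∑ l, rho m r e l * nd l :=
    Pool.Agent.Helper62.IX.sum_vis m r e nd
  have hdv : m ∣ ∑ l : Vis m r e, rho m r e l * nd l ↔ m ∣ r * ∑ l, e l * nd l := by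
    rw [hsum]
    exact Pool.Agent.Helper62.IX.sum_mod m r e nd
  have hij' : m ∣ r * (e i + e j) := by
    have h1 : r * (e i + e j) ≡ m [MOD m] := by
      have h2 : r * e i % m + r * e j % m = m := hij
      have h3 : r * e i + r * e j ≡ r * e i % m + r * e j % m [MOD m] :=
        (Nat.ModEq.add (Nat.mod_modEq _ _) (Nat.mod_modEq _ _)).symm
      rw [h2, ← mul_add] at h3
      exact h3
    exact (h1.dvd_iff dvd_rfl).2 dvd_rfl
  constructor
  · intro hnd
    have hnd' : ¬ m ∣ ∑ l : Vis m r e, rho m r e l * nd l := fun h => hnd (hdv.1 h)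
    have hr : rank m (∑ l : Vis m r e, nd l - 1) (fun l : Vis m r e => rho m r e l)
        (fun l : Vis m r e => nd l) = ∑ l : Vis m r e, nd l - 1 := by
      unfold rank
      rw [if_neg hnd']
    rw [hr] at hrank hform
    have hN : (∑ l : Vis m r e, nd l - 1) + 1 = ∑ l : Vis m r e, nd l := by omega
    refine ⟨∑ l : Vis m r e, nd l - 1, hrank, hN,
      ⟨i, j, t₀, x₀, a₁, hij', to_node _ _ _ _ _ _ hnode⟩, to_irrG _ _ _ _ _ hnd' hirr, ?_⟩
    rcases hform with h | h | h | h
    · exact Or.inl h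
    · exact Or.inr (Or.inl h)
    · exact Or.inr (Or.inr (Or.inl h))
    · exact Or.inr (Or.inr (Or.inr (to_noBilG _ _ _ _ _ hnd' h)))
  · intro hd
    have hd' : m ∣ ∑ l : Vis m r e, rho m r e l * nd l := hdv.2 hd
    have hr : rank m (∑ l : Vis m r e, nd l - 1) (fun l : Vis m r e => rho m r e l)
        (fun l : Vis m r e => nd l) = ∑ l : Vis m r e, nd l - 1 - 1 := by
      unfold rank
      rw [if_pos hd']
    rw [hr] at hrank hform
    obtain ⟨n, hn⟩ : ∃ n, ∑ l : Vis m r e, nd l - 1 = n + 1 :=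
      ⟨∑ l : Vis m r e, nd l - 1 - 1, by omega⟩
    rw [hn] at hrank hform hirr
    rw [Nat.add_sub_cancel] at hrank hform
    obtain ⟨s', hs'⟩ := hd'
    have hs0 : s' ≠ 0 := by
      rintro rfl
      rw [mul_zero, Finset.sum_eq_zero_iff] at hs'
      have h1 : ∑ l : Vis m r e, nd l = 0 := by
        refine Finset.sum_eq_zero fun l hl => ?_
        rcases Nat.mul_eq_zero.1 (hs' l hl) with h2 | h2
        · exact absurd (Nat.dvd_of_mod_eq_zero h2) l.2
        · exact h2
      omega
    obtain ⟨s, rfl⟩ := Nat.exists_eq_succ_of_ne_zero hs0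
    have hN : n + 2 = ∑ l : Vis m r e, nd l := by omega
    refine ⟨n, s, hrank, hN, hs'.symm,
      ⟨i, j, t₀, x₀, a₁, hij', to_node _ _ _ _ _ _ hnode⟩,
      to_irrI _ _ _ _ _ _ (by omega) hs'.symm hirr, ?_⟩
    rcases hform with h | h | h | h
    · exact Or.inl h
    · exact Or.inr (Or.inl h)
    · exact Or.inr (Or.inr (Or.inl h))
    · exact Or.inr (Or.inr (Or.inr (to_noBilI _ _ _ _ _ _ (by omega) hs'.symm h)))

theorem good_iff {K : Type} [Field K] [NumberField K] {q c : ℕ} (m : ℕ) (e nd : Fin c → ℕ)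
    (a : Fin c → (Par K q)[X][X]) (φ : (Par K q)[X])
    (G : ∀ r, MvPolynomial (Fin (dr m e nd r) × Fin (dr m e nd r)) (Par K q)[X])
    (v : HeightOneSpectrum (𝓞 K)) (u : Fin (q + 1) → ℕ) :
    Good m e nd a φ G v u = Pool.Agent.Helper62.IX.GoodDp m (dr m e nd) e a φ G v
      (fun i => u i.castSucc) (u (Fin.last q)) := rfl

theorem few {K : Type} [Field K] [NumberField K] {q : ℕ} (m : ℕ)
    (Good : HeightOneSpectrum (𝓞 K) → (Fin (q + 1) → ℕ) → Prop)
    (Good' : HeightOneSpectrum (𝓞 K) → (Fin q → ℕ) → ℕ → Prop)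
    (h : ∀ v u, Good v u = Good' v (fun i => u i.castSucc) (u (Fin.last q)))
    (hf : Pool.Agent.Helper62.BX.FewR (fun v => m ∣ Ideal.absNorm v.asIdeal - 1) Good') :
    FewClasses m Good := by
  obtain rfl : Good = fun v u => Good' v (fun i => u i.castSucc) (u (Fin.last q)) := by
    funext v u
    exact h v u
  exact Pool.Agent.Helper62.BX.xCount K q _ _ hf

theorem scales {K : Type} [Field K] [NumberField K] {q : ℕ}
    (Good : HeightOneSpectrum (𝓞 K) → (Fin (q + 1) → ℕ) → Prop)
    (Good' : HeightOneSpectrum (𝓞 K) → (Fin q → ℕ) → ℕ → Prop)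
    (h : ∀ v u, Good v u = Good' v (fun i => u i.castSucc) (u (Fin.last q)))
    (hp : Pool.Agent.Helper62.BX.Per Good')
    (hf : Pool.Agent.Helper62.BX.FewR (fun _ => True) Good') :
    AllScales Good ∧ MostScales Good := by
  obtain rfl : Good = fun v u => Good' v (fun i => u i.castSucc) (u (Fin.last q)) := by
    funext v u
    exact h v u
  exact (Pool.Agent.Helper62.BX.conc Pool.Agent.Helper62.BX.xCount
    Pool.Agent.Helper62.BX.xSieve Pool.Agent.Helper62.BX.xMost K q Good' hp hf).2

theorem result (K : Type) [Field K] [NumberField K] (q m c : ℕ) (hm : 2 ≤ m)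
    (e nd : Fin c → ℕ) (a : Fin c → (Par K q)[X][X]) (φ : (Par K q)[X]) (ha : Smooth nd a)
    (hbig : BigMonodromy m e nd a) (hφ : 1 ≤ φ.natDegree)
    (G : ∀ r, MvPolynomial (Fin (dr m e nd r) × Fin (dr m e nd r)) (Par K q)[X])
    (hG : ∀ r, G r ≠ 0) :
    FewClasses m (Good m e nd a φ G) ∧ AllScales (IfSplit m (Good m e nd a φ G)) ∧
      MostScales (IfSplit m (Good m e nd a φ G)) ∧ ((∃ ζ : K, IsPrimitiveRoot ζ m) →
      AllScales (Good m e nd a φ G) ∧ MostScales (Good m e nd a φ G)) := by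
  have hfew := Pool.Agent.Helper62.IX.iFewR0 K (Fin c) q m e nd hm a φ ha
    (fun r h0 h1 h2 => to_big m r hm e nd _ (hbig r h0 h1 h2)) hφ G hG
  have hper := Pool.Agent.Helper62.IX.i_Per K (Fin c) q m (dr m e nd) e a φ G
  obtain ⟨h1, h2⟩ := scales (IfSplit m (Good m e nd a φ G)) _ (fun _ _ => rfl)
    (Pool.Agent.Helper62.IX.per_cond hper) (Pool.Agent.Helper62.IX.few_cond hfew)
  exact ⟨few m _ _ (good_iff m e nd a φ G) hfew, h1, h2, fun hζ =>
    scales _ _ (good_iff m e nd a φ G) hper
      (Pool.Agent.Helper62.BX.few_true hfew (Pool.Agent.Helper62.BM.kRoot K m hm hζ))⟩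

end Pool.Agent.Results.MP_0dad22_ag.BigMonodromyCovers
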