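import Pool.Agent.Helper62.BX.Main
import Pool.Agent.Helper62.BX.Conc

/-!
# Eigen-summands of families of cyclic covers with one moving branch point, several parameters

Let `K` be a number field, `q ≥ 0`, `s = (s_1, …, s_q)`, `n, m ≥ 2` with `m` prime to `n - 1`, let
`f ∈ 𝓞 K [s][x]` be ANY polynomial of degree `n` in `x` which is squarefree over `K(s)`, and let
`φ ∈ 𝓞 K [s][t]` be not constant in `t`. We consider the family of curves with `q + 1` parameters

  `C_u : y ^ m = f(s, x) (x - φ(s, t)) ^ (m - 1)`, `u = (s, t)`,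

(cyclic covers of the line with the function `f(x) / (x - φ)`), of genus `n (m - 1) / 2`. For example
`f(s, x) = x ^ n + s_1 x ^ (n - 1) + … + s_n` and `φ = t`: these are all the curves of this type. Over a
field which contains the `m`-th roots of unity the motive `H ^ 1(C_u)` is the sum of the eigen-summands
`H_r`, `0 < r < m`, of rank `n`. The regular differential forms in `H_r` are
`w(x) (x - φ) ^ (r - 1) dx / y ^ r`, `deg w < d_r = ⌊(n - 1) r / m⌋ + 1`, so the Hodge-Tate polygon of
`H_r` has the slopes `0` and `1` with the multiplicities `d_r` and `n - d_r` (or in the other order). For a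
place `v` of prime norm `p ≡ 1` modulo `m` the Cartier operator maps `H_r` to itself and has there the
matrix `HW_r` with the entries

  `[x ^ (p i - j)] f ^ (r (p - 1) / m) (x - φ) ^ ((m - r) (p - 1) / m)`, `1 ≤ i, j ≤ d_r`;

if the reduction is smooth, the Newton polygon of `H_r` at `v` is the Hodge-Tate polygon if and only if
`HW_r` is invertible. If this is so for all `r` the reduction is ordinary, and the Newton polygons of ALL
summands of `H ^ 1(C_u)`, of its tensor powers and so on, are their Hodge-Tate polygons.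

**Theorem.** Let `G_r ≠ 0` be polynomials in `d_r ^ 2 + 1` variables over `𝓞 K [s]`. Call `v` *good for `u`*
if `C_u` has good reduction at `v` and `det HW_r ≠ 0` and `G_r(φ(s, t), HW_r) ≠ 0` for all `r`.

1. For every `ε > 0` and all but finitely many places `v` of prime norm `N v ≡ 1` modulo `m`, `v` is
   not good for at most `ε (N v) ^ (q + 1)` of the `(N v) ^ (q + 1)` residue classes `u`.
2. If `K` contains the `m`-th roots of unity: for `η > 0`, `0 < θ < 1` there is `A` such that for all
   `u ∈ [1, X] ^ (q + 1)` but at most `A (X ^ (q + 1) / Q₀ ^ (1 - θ) + X ^ q Q₁ ^ (1 + θ))`, and for ALL `Q` with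
   `Q₀ ≤ Q ≤ Q₁`, the places good for `u` are at least the proportion `1 - η` of ALL places `v` of `K` with
   `N v ≤ Q`.
3. If `K` contains the `m`-th roots of unity: for `η, δ > 0` there is `C` such that if
   `X ^ δ Q₀ ≤ Q₁`, then for all `u ∈ [1, X] ^ (q + 1)` but at most `C X ^ q Q₁` the following holds: for at
   least the proportion `1 - η` of the scales `Q = 2 ^ j` between `Q₀` and `Q₁` the places good for `u`
   are at least the proportion `1 - η` of all places of norm at most `Q`.

The case `q = 0` was handed in before as `CyclicCovers`; this file replaces it. For `m ≥ 3` the monodromy of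
the summands `H_r` is not symplectic but unitary, and the Lie algebra which occurs is `sl_n`.

## Proof

As for `m = 2` (see `Pool/Agent/Results/MP_17d720_ag/MovingBranchPoint.lean` for the soft Stepanov
method, the ultraproducts and the internal iteration), with the following changes. In the basis
`b_j = f / (x - a_j)` of the space of the forms `w(x) f ^ (- r / m) (x - t) ^ (- 1 + r / m) dx`, `deg w < n`,
the Gauss-Manin connection is `∇ b_j = κ (∑_l b_l - b_j) / (t - a_j)`, `κ = 1 - r / m`: the exponents at the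
moving and at the fixed branch points are opposite, so the residues are nilpotent of rank one also for
`m > 2`. The `p`-curvature `ψ` has rank one (`Helper68/BM/KRank.lean`). With the residues and the
exponents at infinity one sees that no vector and no row of polynomials of small degree is killed by
`ψ`, that only scalar matrices of small degree commute with it and that for `2 r ≠ m`, `n ≥ 3`, there is
no bilinear form of small degree which it leaves invariant (`Helper34/BK`). A Lie algebra with
these properties contains `sl_n`; we give an elementary proof with the grading by a rank one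
nilpotent element (`Helper15/BM/KLie.lean`). So all the `d_r n` entries of the matrix of the functionals
`Λ_i : w ↦ [x ^ (p i - 1)] (w f ^ (r (p - 1) / m) (x - t) ^ ((m - r) (p - 1) / m))`, `i ≤ d_r`, are
algebraically independent over the functions of bounded degree in `t` and `t ^ p`
(`Helper13/BM/KInd.lean`), once the functionals are linearly independent, and this
is the surjectivity of the Cartier operator (`Helper18/BM/HK.lean`).

This holds over every domain `A` of characteristic zero, with constants which depend only on the family over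
`A`. Take for `A` the ring generated over `𝓞 K [s]` by the zeros of `f`: outside a hypersurface `c(s) = 0` few `t`
are bad, uniformly in `s` (theorem of Chevalley, `X_Spread`, `X_C`), and the theorem of Schwartz and Zippel gives
(1). (2) and (3) follow by sieves (`X_Sieve`, `X_LS`, `X_Most`).

The statements of the lemmas are in `Pool/Agent/Helper62/BM/KStm.lean` and `Pool/Agent/Helper62/BX/Stm.lean`;
they were proved in Lean by helpers 4, 12, 13, 15, 18, 34, 61, 62, 68, 72, 82 and 90 after these docstrings.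
-/

set_option autoImplicit false

open Polynomial Finset NumberField IsDedekindDomain

namespace Pool.Agent.Results.MP_0dad22_ag.CyclicCoversInFamilies

/-- The polynomials over `𝓞 K` in the parameters `s_1, …, s_q`. -/
abbrev Par (K : Type) [Field K] [NumberField K] (q : ℕ) : Type := MvPolynomial (Fin q) (𝓞 K)

variable {K : Type} [Field K] [NumberField K] {q : ℕ}

/-- The value of a polynomial in the parameters; `u = (s_1, …, s_q, t)`. -/
noncomputable def val (u : Fin (q + 1) → ℕ) : Par K q →+* 𝓞 K :=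
  MvPolynomial.eval fun i => (u i.castSucc : 𝓞 K)

/-- The value `φ(s, t)`. -/
noncomputable def phi (φ : (Par K q)[X]) (u : Fin (q + 1) → ℕ) : 𝓞 K :=
  (φ.map (val u)).eval (u (Fin.last q) : 𝓞 K)

/-- The number `d_r` of the regular differential forms in the eigen-summand `H_r`. -/
def dim (n m r : ℕ) : ℕ := (n - 1) * r / m + 1

/-- The block `HW_r` of the Hasse-Witt matrix of `y ^ m = f(x) (x - z) ^ (m - 1)`, `deg f = n`, over a
field with `p` elements, `p ≡ 1` modulo `m`: the entry `(i, j)`, `1 ≤ i, j ≤ d_r`, is the coefficient of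
`x ^ (p i - j)` in `f ^ (r (p - 1) / m) (x - z) ^ ((m - r) (p - 1) / m)`, written as the coefficient of
`x ^ (p i)` in `x ^ j` times this polynomial. -/
noncomputable def hasseWitt {R : Type} [CommRing R] (p n m r : ℕ) (f : R[X]) (z : R) :
    Matrix (Fin (dim n m r)) (Fin (dim n m r)) R :=
  Matrix.of fun i j => (X ^ ((j : ℕ) + 1) * f ^ (r * ((p - 1) / m)) *
    (X - C z) ^ ((m - r) * ((p - 1) / m))).coeff (p * ((i : ℕ) + 1))

/-- The reduction of a polynomial at `v`. -/
noncomputable def red (v : HeightOneSpectrum (𝓞 K)) (F : (𝓞 K)[X]) :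
    v.asIdeal.ResidueField[X] :=
  F.map (algebraMap (𝓞 K) v.asIdeal.ResidueField)

/-- The block `HW_r` at the place `v` of the curve `y ^ m = f(x) (x - z) ^ (m - 1)`. -/
noncomputable def HW (n m r : ℕ) (f : (𝓞 K)[X]) (z : 𝓞 K) (v : HeightOneSpectrum (𝓞 K)) :
    Matrix (Fin (dim n m r)) (Fin (dim n m r)) v.asIdeal.ResidueField :=
  hasseWitt (Ideal.absNorm v.asIdeal) n m r (red v f)
    (algebraMap (𝓞 K) v.asIdeal.ResidueField z)

/-- `v` is good for the curve `y ^ m = f(x) (x - z) ^ (m - 1)`, `deg f = n`: `v` does not divide `m`,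
modulo `v` the polynomial `f` has degree `n` and `(x - z) f` is squarefree (good reduction), and for
`0 < r < m` the block `HW_r` is invertible and `G_r(z, HW_r) ≠ 0`. -/
def GoodAt (n m : ℕ) (f : (𝓞 K)[X])
    (G : ∀ r, MvPolynomial (Fin (dim n m r) × Fin (dim n m r)) (𝓞 K)[X]) (z : 𝓞 K)
    (v : HeightOneSpectrum (𝓞 K)) : Prop :=
  (m : 𝓞 K) ∉ v.asIdeal ∧ (red v f).natDegree = n ∧ (red v ((X - C z) * f)).Separable ∧
    ∀ r, 0 < r → r < m → (HW n m r f z v).det ≠ 0 ∧
      MvPolynomial.eval₂ ((algebraMap (𝓞 K) v.asIdeal.ResidueField).comp (evalRingHom z))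
        (fun w => HW n m r f z v w.1 w.2) (G r) ≠ 0

/-- `v` is good for the parameters `u = (s, t)`. -/
def Good (n m : ℕ) (f φ : (Par K q)[X])
    (G : ∀ r, MvPolynomial (Fin (dim n m r) × Fin (dim n m r)) (Par K q)[X])
    (v : HeightOneSpectrum (𝓞 K)) (u : Fin (q + 1) → ℕ) : Prop :=
  GoodAt n m (f.map (val u)) (fun r => MvPolynomial.map (mapRingHom (val u)) (G r)) (phi φ u) v

open Classical in
/-- For every `ε > 0` and all but finitely many `v` of prime norm `N v ≡ 1` modulo `m` at most
`ε (N v) ^ (q + 1)` classes of parameters modulo `v` are not good. -/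
def FewClasses (m : ℕ) (Good : HeightOneSpectrum (𝓞 K) → (Fin (q + 1) → ℕ) → Prop) : Prop :=
  ∀ ε : ℝ, 0 < ε → {v : HeightOneSpectrum (𝓞 K) | (Ideal.absNorm v.asIdeal).Prime ∧
    m ∣ Ideal.absNorm v.asIdeal - 1 ∧ ε * (Ideal.absNorm v.asIdeal : ℝ) ^ (q + 1) <
      (((Fintype.piFinset fun _ : Fin (q + 1) => range (Ideal.absNorm v.asIdeal)).filter
        fun u => ¬ Good v u).card : ℝ)}.Finite

/-- For almost all parameters the proportion `1 - η` of the places is good, at all scales between `Q₀`
and `Q₁`. -/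
def AllScales (Good : HeightOneSpectrum (𝓞 K) → (Fin (q + 1) → ℕ) → Prop) : Prop :=
  ∀ η : ℝ, 0 < η → ∀ θ : ℝ, 0 < θ → θ < 1 → ∃ A : ℝ, ∀ X Q₀ Q₁ : ℕ, 1 ≤ Q₀ →
    ({u : Fin (q + 1) → ℕ | (∀ i, 1 ≤ u i ∧ u i ≤ X) ∧ ∃ Q, Q₀ ≤ Q ∧ Q ≤ Q₁ ∧
      (Nat.card {v : HeightOneSpectrum (𝓞 K) // Ideal.absNorm v.asIdeal ≤ Q ∧ Good v u} : ℝ) <
      (1 - η) * Nat.card {v : HeightOneSpectrum (𝓞 K) //
        Ideal.absNorm v.asIdeal ≤ Q}}.ncard : ℝ) ≤
    A * ((X : ℝ) ^ (q + 1) * (Q₀ : ℝ) ^ (θ - 1) + (X : ℝ) ^ q * (Q₁ : ℝ) ^ (1 + θ))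

/-- For all but few parameters the proportion `1 - η` of the places is good, at the proportion `1 - η` of
the scales `2 ^ j` between `Q₀` and `Q₁`. -/
def MostScales (Good : HeightOneSpectrum (𝓞 K) → (Fin (q + 1) → ℕ) → Prop) : Prop :=
  ∀ η δ : ℝ, 0 < η → 0 < δ → ∃ C : ℝ, ∀ X Q₀ Q₁ : ℕ, 1 ≤ Q₀ → (X : ℝ) ^ δ * Q₀ ≤ Q₁ →
    ({u : Fin (q + 1) → ℕ | (∀ i, 1 ≤ u i ∧ u i ≤ X) ∧
      (Nat.card {j : ℕ // (Q₀ ≤ 2 ^ j ∧ 2 ^ j ≤ Q₁) ∧
        (1 - η) * Nat.card {v : HeightOneSpectrum (𝓞 K) // Ideal.absNorm v.asIdeal ≤ 2 ^ j} ≤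
        (Nat.card {v : HeightOneSpectrum (𝓞 K) // Ideal.absNorm v.asIdeal ≤ 2 ^ j ∧
          Good v u} : ℝ)} : ℝ) <
      (1 - η) * Nat.card {j : ℕ // Q₀ ≤ 2 ^ j ∧ 2 ^ j ≤ Q₁}}.ncard : ℝ) ≤
    C * ((X : ℝ) ^ q * Q₁)

end Pool.Agent.Results.MP_0dad22_ag.CyclicCoversInFamilies

open Pool.Agent.Results.MP_0dad22_ag.CyclicCoversInFamilies

namespace Pool.Agent.Results.MP_0dad22_ag.CyclicCoversInFamilies

theorem good_iff {K : Type} [Field K] [NumberField K] {q : ℕ} (n m : ℕ) (f φ : (Par K q)[X])
    (G : ∀ r, MvPolynomial (Fin (dim n m r) × Fin (dim n m r)) (Par K q)[X])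
    (v : HeightOneSpectrum (𝓞 K)) (u : Fin (q + 1) → ℕ) :
    Good n m f φ G v u = Pool.Agent.Helper62.BX.GoodC n m f φ G v (fun i => u i.castSucc)
      (u (Fin.last q)) := rfl

theorem few {K : Type} [Field K] [NumberField K] {q : ℕ} (m : ℕ)
    (Good : HeightOneSpectrum (𝓞 K) → (Fin (q + 1) → ℕ) → Prop)
    (Good' : HeightOneSpectrum (𝓞 K) → (Fin q → ℕ) → ℕ → Prop)
    (h : ∀ v u, Good v u = Good' v (fun i => u i.castSucc) (u (Fin.last q)))
    (hf : Pool.Agent.Helper62.BX.FewR (fun v => m ∣ Ideal.absNorm v.asIdeal - 1) Good') :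
    FewClasses m Good := by
  obtain rfl : Good = fun v u => Good' v (fun i => u i.castSucc) (u (Fin.last q)) := by
    funext v u
    exact h v u
  exact Pool.Agent.Helper62.BX.xCount K q _ _ hf

theorem scales {K : Type} [Field K] [NumberField K] {q : ℕ}
    (Good : HeightOneSpectrum (𝓞 K) → (Fin (q + 1) → ℕ) → Prop)
    (Good' : HeightOneSpectrum (𝓞 K) → (Fin q → ℕ) → ℕ → Prop)
    (h : ∀ v u, Good v u = Good' v (fun i => u i.castSucc) (u (Fin.last q)))
    (hp : Pool.Agent.Helper62.BX.Per Good')
    (hf : Pool.Agent.Helper62.BX.FewR (fun _ => True) Good') :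
    AllScales Good ∧ MostScales Good := by
  obtain rfl : Good = fun v u => Good' v (fun i => u i.castSucc) (u (Fin.last q)) := by
    funext v u
    exact h v u
  exact (Pool.Agent.Helper62.BX.conc Pool.Agent.Helper62.BX.xCount
    Pool.Agent.Helper62.BX.xSieve Pool.Agent.Helper62.BX.xMost K q Good' hp hf).2

theorem result (K : Type) [Field K] [NumberField K] (q n m : ℕ) (hn : 2 ≤ n) (hm : 2 ≤ m)
    (hmn : Nat.Coprime m (n - 1)) (f φ : (Par K q)[X]) (hdeg : f.natDegree = n)
    (hf : (f.map (algebraMap (Par K q) (FractionRing (Par K q)))).Separable)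
    (hφ : 1 ≤ φ.natDegree)
    (G : ∀ r, MvPolynomial (Fin (dim n m r) × Fin (dim n m r)) (Par K q)[X])
    (hG : ∀ r, G r ≠ 0) :
    FewClasses m (Good n m f φ G) ∧ ((∃ ζ : K, IsPrimitiveRoot ζ m) →
      AllScales (Good n m f φ G) ∧ MostScales (Good n m f φ G)) := by
  have hfew := Pool.Agent.Helper62.BX.xC K q n m hn hm hmn f φ hdeg hf hφ G hG
  exact ⟨few m _ _ (good_iff n m f φ G) hfew, fun hζ => scales _ _ (good_iff n m f φ G)
    (Pool.Agent.Helper62.BX.perC n m f φ G)
    (Pool.Agent.Helper62.BX.few_true hfew (Pool.Agent.Helper62.BM.kRoot K m hm hζ))⟩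

end Pool.Agent.Results.MP_0dad22_ag.CyclicCoversInFamilies
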