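import Pool.Agent.Helper24.SE.Occ

/-!
# Ordinary primes for summands of motives: how often the motives occur, and power savings

Let `F` be a number field and `E` the category of André motives over `F`, with the Tate twist
`t N = N(1)`. For a separated scheme `X` of finite type over `ℚ` let `Mc X` be the geometric motive with
compact support of `X_F` (with rational coefficients), and `Gr w j (Mc X)` the motive
`Gr^W_w H_j(X_F)` in `E`, the dual of `Gr^W_{-w} H^j_c(X_F)`. For a motive `R` let `ord R` be the statement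
of question Q1 for `R`: there are infinitely many primes `𝔭` of `F` such that for every prime `ℓ` with
`𝔭 ∤ ℓ` and every embedding `τ` one has `Newton_τ(Frob_𝔭, R_ℓ) = HP(R_ℓ)`. The property `Summand R` says
that `R = e M` for the motives `M` of hypothesis (A) in question Q1. These are the data `OrdData` of the
library module `OneCubicForEachMotive`, and `IsOrd` lists their known properties.

For a polynomial `G ∈ ℤ[x_1, …, x_r]` let `V(G)` be the hypersurface `G = 0` in the affine space over `ℚ`.
For `d, B ≥ 0` let `Box(d, B)` be the finite set of the `G` of degree at most `d` in each variable, for which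
the sum of the absolute values of the coefficients is at most `B`.

**Theorem.** (1) Let `L` be a finite list of motives `R = e M` of question Q1. For all large `r`, all
`ε > 0`, all large `d` and all large `B` (depending on `d`) there are more than `#Box(d, B) ^ (1 - ε)`
polynomials `G` in `Box(d, B)` such that EVERY `R` of the list is, up to a Tate twist, a direct factor of one
of the motives `Gr^W_{3-j} H_j(V(G))`.

(2) Question Q1 has a positive answer for all data over `F` if and only if for every `r` the sets of the `G`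
such that some direct factor of some `Gr^W_{3-j} H_j(V(G))` is not ordinary at infinitely many primes
(`NotOrdinary`) have a power saving: for some `ε > 0` there are infinitely many `d`, and for these
infinitely many `B`, such that there are at most `#Box(d, B) ^ (1 - ε)` such `G` in `Box(d, B)`.

(3) It is enough that this is true for infinitely many `r`.

(4) A zero–one law, for each `r`: if there is one such `G ≠ 0` in `r` variables, then for every `ε > 0`, all
large `d` and all large `B` (depending on `d`) there are more than `#Box(d, B) ^ (1 - ε)` such `G` in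
`Box(d, B)`.

(The property that all direct factors have infinitely many ordinary primes is not known to pass to direct
sums and has no property two out of three; it is only used that it passes to direct factors.)
-/

set_option autoImplicit false

open CategoryTheory CategoryTheory.Limits AlgebraicGeometry Pretriangulated MvPolynomial Filter
  Pool.Agent.Y116.UV Pool.Agent.Q193.LT Pool.Agent.Q115.DU
  Pool.Agent.Results.MP_0dad22_ag.OneCubicForEachMotive Pool.Agent.Helper24.SE

namespace Pool.Agent.Results.MP_0dad22_ag.PowerSaving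

open Pool.Agent.Helper24.KE (V toQ exists_rep)

universe v u v' u'

variable {C : Type u} [Category.{v} C] [Preadditive C] [HasZeroObject C]
  [HasShift C ℤ] [∀ n : ℤ, (shiftFunctor C n).Additive] [Pretriangulated C]
  {E : Type u'} [Category.{v'} E] {D : OrdData ℚ C E}

/-- Every motive of the list `L` is, up to a Tate twist, a direct factor of one of the motives
`Gr^W_{3-j} H_j(V(G))`. -/
def AllOccur (D : OrdData ℚ C E) (L : List E) {r : ℕ} (G : MvPolynomial (Fin r) ℤ) : Prop :=
  ∀ R ∈ L, Occurs D R (V (toQ G))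

/-- Some direct factor of some motive `Gr^W_{3-j} H_j(V(G))` is not ordinary. -/
def NotOrdinary (D : OrdData ℚ C E) {r : ℕ} (G : MvPolynomial (Fin r) ℤ) : Prop :=
  ∃ (j : ℤ) (N : E), IsFactor N ((D.Gr (3 - j) j).obj (D.Mc (V (toQ G)))) ∧ ¬ D.ord N

lemma tri_ne {a b c : ℕ} (T : Fin a → Fin b → Fin c → ℚ) : tri T - 1 ≠ 0 := by
  intro h
  have h1 := congrArg constantCoeff h
  rw [map_sub, map_one, map_zero] at h1
  have h2 : constantCoeff (tri T) = 0 := by
    unfold tri
    simp only [map_sum, map_mul, constantCoeff_X, mul_zero, Finset.sum_const_zero]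
  rw [h2] at h1
  norm_num at h1

/-- One polynomial for each finite list of motives and each large number of variables. -/
theorem exists_poly (hD : IsOrd D) (L : List E) (hL : ∀ R ∈ L, D.Summand R) :
    ∀ᶠ r : ℕ in atTop, ∃ G : MvPolynomial (Fin r) ℤ, G ≠ 0 ∧ AllOccur D L G := by
  obtain ⟨Z, ⟨a, b, c, T, -, rfl⟩, h⟩ :=
    (OneCubicForEachMotive.result hD Set.univ (Or.inl rfl)).2.1 L hL
  filter_upwards [eventually_ge_atTop (a + (b + c))] with r hr
  have hc : Fintype.card (Fin (r - (a + (b + c))) ⊕ (Fin a ⊕ (Fin b ⊕ Fin c))) = r := by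
    simp only [Fintype.card_sum, Fintype.card_fin]
    omega
  let f := Fintype.equivFinOfCardEq hc
  obtain ⟨G, N, hN, hG⟩ := exists_rep (rename f (rename Sum.inr (tri T - 1)))
  refine ⟨G, ren_ne (tri_ne T) f hN hG, fun R hR => ?_⟩
  obtain ⟨x, y, j, hf⟩ := h R hR
  exact occurs_ren hD (tri T - 1) (r - (a + (b + c))) f hN hG ⟨x, y, j, hf⟩

lemma occur_step (hD : IsOrd D) (L : List E) {r : ℕ} (G P : MvPolynomial (Fin r) ℤ)
    (h : AllOccur D L G) : AllOccur D L (1 + G * P) ∨ AllOccur D L (G * (1 + G * P)) :=
  Or.inr fun R hR => occurs_mono (factor_crt hD.graded.motives.compact G P) (h R hR)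

lemma bad_step (hD : IsOrd D) {r : ℕ} (G P : MvPolynomial (Fin r) ℤ)
    (h : NotOrdinary D G) : NotOrdinary D (1 + G * P) ∨ NotOrdinary D (G * (1 + G * P)) := by
  obtain ⟨j, N, h1, h2⟩ := h
  exact Or.inr ⟨j, N, h1.trans ((factor_crt hD.graded.motives.compact G P).map _), h2⟩

/-- **Ordinary primes: power savings.** -/
theorem result (hD : IsOrd D) :
    (∀ L : List E, (∀ R ∈ L, D.Summand R) → ∀ᶠ r : ℕ in atTop, ∀ ε : ℝ, 0 < ε →
      ∀ᶠ d : ℕ in atTop, ∀ᶠ B : ℕ in atTop, ((Box r d B).ncard : ℝ) ^ (1 - ε) <
        ((Exc (r := r) (AllOccur D L) d B).ncard : ℝ)) ∧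
    ((∀ R : E, D.Summand R → D.ord R) ↔ ∀ r : ℕ, Saving (r := r) (NotOrdinary D)) ∧
    ((∀ R : E, D.Summand R → D.ord R) ↔
      ∃ᶠ r : ℕ in atTop, Saving (r := r) (NotOrdinary D)) ∧
    (∀ (r : ℕ) (G : MvPolynomial (Fin r) ℤ), G ≠ 0 → NotOrdinary D G → ∀ ε : ℝ, 0 < ε →
      ∀ᶠ d : ℕ in atTop, ∀ᶠ B : ℕ in atTop, ((Box r d B).ncard : ℝ) ^ (1 - ε) <
        ((Exc (r := r) (NotOrdinary D) d B).ncard : ℝ)) := by
  have h1 : ∀ L : List E, (∀ R ∈ L, D.Summand R) → ∀ᶠ r : ℕ in atTop, ∀ ε : ℝ, 0 < ε →
      ∀ᶠ d : ℕ in atTop, ∀ᶠ B : ℕ in atTop, ((Box r d B).ncard : ℝ) ^ (1 - ε) <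
        ((Exc (r := r) (AllOccur D L) d B).ncard : ℝ) := by
    intro L hL
    filter_upwards [exists_poly hD L hL] with r hr ε hε
    obtain ⟨G, hG0, hG⟩ := hr
    exact full (occur_step hD L) hG hG0 hε
  have h2 : (∀ R : E, D.Summand R → D.ord R) → ∀ r : ℕ, Saving (r := r) (NotOrdinary D) := by
    intro h r
    refine ⟨1, one_pos, Frequently.of_forall fun d => Frequently.of_forall fun B => ?_⟩
    have h3 : Exc (r := r) (NotOrdinary D) d B = ∅ := by
      rw [Set.eq_empty_iff_forall_notMem]
      rintro G ⟨-, j, N, hN, hn⟩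
      obtain ⟨R, a, b, hR, e⟩ := hD.pieces _ _ j N (ft_aff True) hN
      exact hn ((ord_it hD N a).1 (hD.iso (iso_symm e) ((ord_it hD R b).2 (h R hR))))
    rw [h3, Set.ncard_empty, Nat.cast_zero]
    exact Real.rpow_nonneg (Nat.cast_nonneg _) _
  have h3 : (∃ᶠ r : ℕ in atTop, Saving (r := r) (NotOrdinary D)) →
      ∀ R : E, D.Summand R → D.ord R := by
    intro h R hR
    by_contra hn
    have h4 := h1 [R] fun R' hR' => by
      rw [List.mem_singleton.1 hR']
      exact hR
    obtain ⟨r, ⟨ε, hε, hs⟩, h5⟩ := (h.and_eventually h4).exists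
    obtain ⟨d, h6, h7⟩ := (hs.and_eventually (h5 ε hε)).exists
    obtain ⟨B, h8, h9⟩ := (h6.and_eventually h7).exists
    refine absurd h8 (not_le.mpr (h9.trans_le ?_))
    have h10 : Exc (r := r) (AllOccur D [R]) d B ⊆ Exc (r := r) (NotOrdinary D) d B :=
      fun G hG => ⟨hG.1, occurs_bad hD (hG.2 R (List.mem_singleton.2 rfl)) hn⟩
    exact_mod_cast Set.ncard_le_ncard h10 ((finite_box r d B).subset fun G hG => hG.1)
  exact ⟨h1, ⟨h2, fun h => h3 (Frequently.of_forall h)⟩,
    ⟨fun h => Frequently.of_forall (h2 h), h3⟩,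
    fun r G hG0 hG ε hε => full (bad_step hD) hG hG0 hε⟩

end Pool.Agent.Results.MP_0dad22_ag.PowerSaving
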